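import Pool.Agent.H61.CMC.TargetsE1

/-!
# Monotonicity of the Gamma function (row E1_GMO)
-/

set_option autoImplicit false

open MeasureTheory Set Filter NumberField NumberField.InfinitePlace NumberField.Units
  NumberField.Units.dirichletUnitTheorem Pool.Agent.H65.CM4 Pool.Agent.H65.CMC Pool.Agent.H25.HK
  Pool.Agent.H61.CM4 Pool.Agent.H61.CMC
open scoped Real

namespace Pool.Agent.H98.CMC1

open Topology

theorem norm_seq (a t : ℝ) (n : ℕ) (hn : 0 < n) :
    ‖Complex.GammaSeq (a + t * Complex.I) n‖ =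
      (n : ℝ) ^ a * (n.factorial : ℝ) /
        ∏ j ∈ Finset.range (n + 1), ‖(a : ℂ) + t * Complex.I + (j : ℂ)‖ := by
  unfold Complex.GammaSeq
  rw [norm_div, norm_mul, norm_prod, Complex.norm_natCast_cpow_of_pos hn]
  simp

theorem norm_pt (a t : ℝ) (j : ℕ) :
    ‖(a : ℂ) + t * Complex.I + (j : ℂ)‖ = √((a + j) ^ 2 + t ^ 2) := by
  have e : (a : ℂ) + t * Complex.I + (j : ℂ) = ((a + j : ℝ) : ℂ) + (t : ℝ) * Complex.I := by
    push_cast; ring
  rw [e, Complex.norm_add_mul_I]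

theorem pt_pos (a t : ℝ) (j : ℕ) (ha : 0 < a) : 0 < ‖(a : ℂ) + t * Complex.I + (j : ℂ)‖ := by
  rw [norm_pt]
  have : (0 : ℝ) ≤ j := Nat.cast_nonneg j
  positivity

theorem tend (s : ℂ) : Tendsto (fun n => ‖Complex.GammaSeq s n‖) atTop (𝓝 ‖Complex.Gamma s‖) :=
  (Complex.GammaSeq_tendsto_Gamma s).norm

theorem pf_GMO : T_GMO := by
  refine ⟨?_, ?_⟩
  · intro a t τ ha htτ
    refine le_of_tendsto_of_tendsto (tend _) (tend _) ?_
    filter_upwards [eventually_gt_atTop 0] with n hn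
    rw [norm_seq a τ n hn, norm_seq a t n hn]
    refine div_le_div_of_nonneg_left (by positivity)
      (Finset.prod_pos (fun j _ => pt_pos a t j ha)) ?_
    refine Finset.prod_le_prod (fun j _ => norm_nonneg _) (fun j _ => ?_)
    rw [norm_pt, norm_pt]
    refine Real.sqrt_le_sqrt ?_
    have := sq_le_sq.2 htτ
    linarith
  · intro x x' τ hx hxx'
    have hx' : 0 < x' := lt_of_lt_of_le hx hxx'
    have e : ∀ y : ℝ, 0 < y → Real.Gamma y = ‖Complex.Gamma ((y : ℂ) + ((0 : ℝ) : ℂ) * Complex.I)‖ := by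
      intro y hy
      rw [Complex.ofReal_zero, zero_mul, add_zero, Complex.Gamma_ofReal, Complex.norm_real,
        Real.norm_eq_abs, abs_of_pos (Real.Gamma_pos_of_pos hy)]
    rw [e x hx, e x' hx']
    refine le_of_tendsto_of_tendsto ((tend _).mul (tend _)) ((tend _).mul (tend _)) ?_
    filter_upwards [eventually_gt_atTop 0] with n hn
    change ‖Complex.GammaSeq ((x : ℂ) + τ * Complex.I) n‖ *
        ‖Complex.GammaSeq ((x' : ℂ) + ((0 : ℝ) : ℂ) * Complex.I) n‖ ≤
      ‖Complex.GammaSeq ((x' : ℂ) + τ * Complex.I) n‖ *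
        ‖Complex.GammaSeq ((x : ℂ) + ((0 : ℝ) : ℂ) * Complex.I) n‖
    rw [norm_seq x τ n hn, norm_seq x' τ n hn, norm_seq x 0 n hn, norm_seq x' 0 n hn,
      div_mul_div_comm, div_mul_div_comm]
    have h1 : (n : ℝ) ^ x * (n.factorial : ℝ) * ((n : ℝ) ^ x' * (n.factorial : ℝ)) =
        (n : ℝ) ^ x' * (n.factorial : ℝ) * ((n : ℝ) ^ x * (n.factorial : ℝ)) := by ring
    rw [h1, ← Finset.prod_mul_distrib, ← Finset.prod_mul_distrib]
    refine div_le_div_of_nonneg_left (by positivity)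
      (Finset.prod_pos (fun j _ => mul_pos (pt_pos x' τ j hx') (pt_pos x 0 j hx))) ?_
    refine Finset.prod_le_prod (fun j _ => mul_nonneg (norm_nonneg _) (norm_nonneg _))
      (fun j _ => ?_)
    rw [norm_pt, norm_pt, norm_pt, norm_pt, ← Real.sqrt_mul (by positivity),
      ← Real.sqrt_mul (by positivity)]
    refine Real.sqrt_le_sqrt ?_
    have hj : (0 : ℝ) ≤ j := Nat.cast_nonneg j
    have h2 : (x + j) ^ 2 ≤ (x' + j) ^ 2 := by
      apply pow_le_pow_left₀ (by linarith)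
      linarith
    nlinarith [sq_nonneg τ, mul_le_mul_of_nonneg_right h2 (sq_nonneg τ)]

end Pool.Agent.H98.CMC1
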